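import Pool.Agent.L7h54.MN.Sharp

set_option autoImplicit false

/-!
# MP_c7a479_co: variational sets of block products

Let `n ≡ 2 mod 4` and `m` even. A cube is a block product for a partition of the `m` coordinates in `r`
blocks if it is `e (g_1 (x) ⋯ g_r (x))` in a group of order `n`, `g_b` a function of the coordinates of
the block `b`. If `r > m / 2`, at most `m` members of a variational set are block products for one
partition. For order six and every even `m ≥ 8` there are variational sets of `m + 1` block products
with `m / 2` blocks, so that `m / 2` is the largest number of blocks.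

Proof. Every group of order `2 mod 4` has a subgroup of index two, so every symbol of a block product
has a sign `± 1`, multiplicative over the blocks. For `m + 1` members the sum over all cells of the
product of the `m + 1` signs is `2 ^ m` times an odd number, for any choice of signs that are balanced
on the symbols. For block products it is a product over the blocks, and every line sum of the factor of a
block is divisible by `4` because `m + 1` and `n / 2` are odd, so that it is divisible by `4 ^ r`.
-/

namespace Pool.Agent.Results.MP_c7a479_co.BlockProducts

open Function Pool.Agent.H430R2.PermCubes Pool.Agent.L7h54.MN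

theorem result :
    (∀ (m n k r : ℕ) (C : Fin k → (Fin m → Fin n) → Fin n) (β : Fin m → Fin r), 2 ≤ m → Even m →
      n % 4 = 2 → IsVariationalSet m n k C → Surjective β → m < 2 * r →
      {i : Fin k | IsBlockProduct m n r β (C i)}.ncard ≤ m) ∧
    ∀ m : ℕ, 8 ≤ m → Even m →
      IsGreatest {r : ℕ | ∃ (β : Fin m → Fin r) (C : Fin (m + 1) → (Fin m → Fin 6) → Fin 6),
        Surjective β ∧ IsVariationalSet m 6 (m + 1) C ∧ ∀ i, IsBlockProduct m 6 r β (C i)}
        (m / 2) := by
  classical
  refine ⟨?_, ?_⟩
  · intro m n k r C β hm hme hn h hβ hr
    by_contra hcon
    push Not at hcon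
    set S : Set (Fin k) := {i : Fin k | IsBlockProduct m n r β (C i)} with hS
    have h1 : Fintype.card (Fin (m + 1)) ≤ Fintype.card S := by
      rw [Fintype.card_fin, ← Nat.card_eq_fintype_card]
      exact hcon
    obtain ⟨f⟩ := Function.Embedding.nonempty_of_card_le h1
    have := blocks hm hme hn h β hβ (fun a => (f a : Fin k))
      (fun a b hab => f.injective (Subtype.ext hab)) (fun a => (f a).2)
    omega
  · intro m hm hme
    refine ⟨exists_sharp hm hme, ?_⟩
    rintro r ⟨β, C, hβ, hC, hP⟩
    have := blocks (by omega) hme (by norm_num) hC β hβ (fun a => a) (fun a b hab => hab) hP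
    omega

end Pool.Agent.Results.MP_c7a479_co.BlockProducts
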