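import Pool.Agent.L7h11.PC.Prod

/-!
# MP_c7a479_co: Mann's theorem in every dimension

Let `n ≡ 2 mod 4`, `m ≥ 2`, and let `C i` be a member of a variational set of at least `m` cubes of
dimension `m` and order `n`.  Every box `A_1 × ... × A_m` with `|A_j| = n / 2` contains, for every set
`S` of `n / 2` symbols, at least `(n + 2) / 4` cells with a symbol outside `S`.  So no member has a
subcube of order `n / 2`, and every member differs in at least `2 ^ (m - 2) * (n + 2)` cells from every
cube `θ_1(x_1) ... θ_m(x_m)` based on a group of order `n`.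

Proof.  Let `h = n / 2`, `u(x) = ∏ ε_j (x_j)` with `ε_j = 1` on `A_j` and `-1` elsewhere, `f(x) = ± 1`
according to `C i x ∈ S`, and let `g` be a function with zero sums over the lines. Then the sum of
`u g` is `2 ^ m` times the sum of `g` over the box. With `g = f` the number of the cells with `u ≠ f`
is `2 ^ m w`, `w` the number of the foreign cells of the box. With `g(x) = n [C i' x = s] - 1`, which is
orthogonal to `f`, the sum of `u` over the cells with `u ≠ f` and `C i' x = s` is
`2 ^ (m - 2) (2 N - h ^ (m - 1))`, where `N` is the number of the cells of the box with `C i' x = s`; this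
is not zero because `h` is odd. Summation over `s` gives `2 ^ m w ≥ 2 ^ (m - 2) n`.

The second step only uses that `f` is orthogonal to `g`, and so holds for the product `f` of the signs
of the symbols of all the members in a set `T` of less than `m` members with `i' ∉ T`: for all half
sets, the parity of the number of the members in `T` with a symbol in its half set is not determined by
the coordinates, not even on the cells with `C i' x = s`.
-/

set_option autoImplicit false

open Finset

namespace Pool.Agent.Results.MP_c7a479_co.MannAllDimensions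

open Pool.Agent.H430R2.PermCubes

theorem result : ∀ (m n k : ℕ) (C : Fin k → (Fin m → Fin n) → Fin n), 2 ≤ m → m ≤ k → n % 4 = 2 →
    IsVariationalSet m n k C →
    (∀ (i : Fin k) (A : Fin m → Finset (Fin n)) (S : Finset (Fin n)), (∀ j, 2 * (A j).card = n) →
      2 * S.card = n →
      n + 2 ≤ 4 * (univ.filter (fun x : Fin m → Fin n => (∀ j, x j ∈ A j) ∧ C i x ∉ S)).card) ∧
    (∀ T : Finset (Fin k), T.Nonempty → T.card < m →
      ∀ (A : Fin m → Finset (Fin n)) (S : Fin k → Finset (Fin n)), (∀ j, 2 * (A j).card = n) →
      (∀ i, 2 * (S i).card = n) → ∀ i' : Fin k, i' ∉ T → ∀ s : Fin n,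
      2 ^ (m - 2) ≤ (univ.filter (fun x : Fin m → Fin n => C i' x = s ∧
        Odd ((T.filter (fun i => C i x ∈ S i)).card +
          (univ.filter (fun j => x j ∈ A j)).card))).card) ∧
    ∀ (i : Fin k) (G : Type) [Group G] (θ : Fin m → Fin n ≃ G) (e : G ≃ Fin n),
      2 ^ (m - 2) * (n + 2) ≤ (univ.filter (fun x : Fin m → Fin n =>
        C i x ≠ e (List.ofFn (fun j => θ j (x j))).prod)).card := by
  classical
  intro m n k C hm hmk hn4 hV
  have hnh : n = 2 * (n / 2) := by omega
  have hh : Odd (n / 2) := by
    rw [Nat.odd_iff]
    omega
  refine ⟨fun i A S hA hS => ?_, fun T hT hTm A S hA hS i' hi' s => ?_, fun i G _ θ e => ?_⟩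
  · exact Pool.Agent.L7h11.PC.foreign_count hV hm hmk hnh hh i A S
      (fun j => by have := hA j; omega) (by omega)
  · exact Pool.Agent.L7h11.PC.parity_count hV hm hmk hnh hh hT hTm A S hA hS hi' s
  · exact Pool.Agent.L7h11.PC.far hV hm hmk hnh hh i G θ e

end Pool.Agent.Results.MP_c7a479_co.MannAllDimensions
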