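import Pool.Agent.L7h28.VC.NL

set_option autoImplicit false

/-!
# MP_c7a479_co: nonlinear variational sets of prime order with many linear members

For every odd prime `p` and all `m ≥ 2`, `k ≥ 1` with `m + k ≤ (p - 1) / 2`, and for odd `m` even
for all `m, k ≤ (p - 1) / 2`, there is a variational set of `k + 1` permutation cubes of dimension
`m` and order `p`, `k` of which are linear over `F_p`, which is not linear for any labels.

Construction. Coordinates and linear members are values of polynomials of degree `m - 1` at points
(normal rational curve), chosen so that for each set `T` of `m - 1` of them the product of the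
parameters is a square; the last cube is the nonlinear function
`(y 0 + ε y (m-1)) + g (y 0 - ε y (m-1))`, `g v = v` for squares and `- v` for nonsquares (the
Lovász–Schrijver set), which is injective in each direction annihilated by `m - 1` of these forms.
Parts by helpers 18 and 21, put together by helper28.
-/

namespace Pool.Agent.Results.MP_c7a479_co.NonlinearPrimeOrder

open Pool.Agent.H430R2.PermCubes Pool.Agent.Y347.VL Pool.Agent.L7h28.VC

/-- See the head of the file. `LinearOn p m k C J τ`: the members `C j`, `j ∈ J`, of the family are
linear over `ZMod p` for the labels `τ i` of the `i`-th coordinate; `IsLinear (ZMod p) m p k C`: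
all members of the family are linear over `ZMod p` for some labels of the coordinates. -/
theorem result (p m k : ℕ) (hp : p.Prime) (hp3 : 3 ≤ p) (hm : 2 ≤ m) (hk : 1 ≤ k)
    (h : m + k ≤ (p - 1) / 2 ∨ (Odd m ∧ m ≤ (p - 1) / 2 ∧ k ≤ (p - 1) / 2)) :
    ∃ (C : Fin (k + 1) → (Fin m → Fin p) → Fin p) (J : Finset (Fin (k + 1)))
      (τ : Fin m → (Fin p ≃ ZMod p)), IsVariationalSet m p (k + 1) C ∧
      LinearOn p m (k + 1) C J τ ∧ J.card = k ∧ ¬ IsLinear (ZMod p) m p (k + 1) C := by
  haveI : Fact p.Prime := ⟨hp⟩
  exact nonlinear hp3 m k hm hk h

end Pool.Agent.Results.MP_c7a479_co.NonlinearPrimeOrder
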