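import Pool.Agent.L7h54.MN.RelGrp

set_option autoImplicit false

/-!
# MP_c7a479_co: relations between the members of a variational set

Let `n ≡ 2 mod 4`, `m ≥ 2`. If a variational set has at least `m + 2` members, no `m + 1` of them
satisfy a parity relation or a relation given by a group of order `n`, not even up to
`2 ^ (m - 2) * (n + 2) - 1` cells; if it has at least `m + 1` members, the same holds for `m` members and
one coordinate.

Proof. Take `m` members as new coordinates and another member `c`, which exists by the assumption
on `k`. Every layer `c = s` meets every line of the new coordinates in one cell, so for half sets the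
sum over the layer of the product of the signs of the `m` members is `2 ^ (m - 1)` times an odd number,
while the sum of the signs of the last member (or coordinate) over the layer is zero. For `m + 1`
members the number of the cells is moreover divisible by `2 ^ m`. A group of order `n` has a subgroup
of index two, which turns a relation in the group into a parity relation.
-/

namespace Pool.Agent.Results.MP_c7a479_co.RelationsBetweenMembers

open Finset Function Pool.Agent.H430R2.PermCubes Pool.Agent.L7h54.MN

theorem result : ∀ (m n k : ℕ) (C : Fin k → (Fin m → Fin n) → Fin n), 2 ≤ m → n % 4 = 2 →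
    IsVariationalSet m n k C →
    (m + 2 ≤ k → ∀ e : Fin (m + 1) → Fin k, Injective e →
      (∀ H : Fin (m + 1) → Finset (Fin n), (∀ j, 2 * (H j).card = n) →
        2 ^ (m - 2) * (n + 2) ≤ (univ.filter fun x : Fin m → Fin n =>
          Odd (univ.filter fun j => C (e j) x ∈ H j).card).card) ∧
      ∀ (G : Type) [Group G] (g : Fin m → Fin n ≃ G) (f : G ≃ Fin n),
        2 ^ (m - 2) * (n + 2) ≤ (univ.filter fun x : Fin m → Fin n =>
          C (e (Fin.last m)) x ≠ f (List.ofFn fun j => g j (C (e j.castSucc) x)).prod).card) ∧
    (m + 1 ≤ k → ∀ e : Fin m → Fin k, Injective e → ∀ l : Fin m,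
      (∀ (H : Fin m → Finset (Fin n)) (A : Finset (Fin n)), (∀ j, 2 * (H j).card = n) →
        2 * A.card = n → n * 2 ^ (m - 2) ≤ (univ.filter fun x : Fin m → Fin n =>
          Odd ((univ.filter fun j => C (e j) x ∈ H j).card + if x l ∈ A then 1 else 0)).card) ∧
      ∀ (G : Type) [Group G] (g : Fin m → Fin n ≃ G) (f : G ≃ Fin n),
        n * 2 ^ (m - 2) ≤ (univ.filter fun x : Fin m → Fin n =>
          x l ≠ f (List.ofFn fun j => g j (C (e j) x)).prod).card) := by
  intro m n k C hm hn h
  refine ⟨fun hk e he => ⟨fun H hH => ?_, fun G _ g f => ?_⟩,
    fun hk e he l => ⟨fun H A hH hA => ?_, fun G _ g f => ?_⟩⟩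
  · exact rel_members' hm hk hn h e he H hH
  · exact grp_members hm hk hn h e he G g f
  · exact rel_coord hm hk hn h e he l H hH A hA
  · exact grp_coord hm hk hn h e he l G g f

end Pool.Agent.Results.MP_c7a479_co.RelationsBetweenMembers
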